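import Pool.Agent.K3h26.R6.Stm

/-!
# Brick SL (general dimension): the layers of a lattice tiling

Adapted from `Pool.Agent.K3h86.R5.SL` (helper86, dimension five).
-/

set_option autoImplicit false

open Filter Topology Set

namespace Pool.Agent.K3h24.R6

open Pool.Agent.K3h26.R6

variable {p : ℕ}

theorem cases5 {P : Fin (p + 5) → Prop} (h0 : P 0) (h1 : P 1) (h2 : P 2)
    (h : ∀ l : Fin (p + 2), P l.succ.succ.succ) (i : Fin (p + 5)) : P i := by
  refine Fin.cases h0 (fun i => ?_) i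
  refine Fin.cases h1 (fun i => ?_) i
  exact Fin.cases h2 (fun l => h l) i

/-- the vector with given first three and given last coordinates -/
def mk (x : Fin 3 → ℝ) (c : Fin (p + 2) → ℝ) : Fin (p + 5) → ℝ :=
  Fin.cons (x 0) (Fin.cons (x 1) (Fin.cons (x 2) c : Fin (p + 3) → ℝ) : Fin (p + 4) → ℝ)

theorem mk0 (x : Fin 3 → ℝ) (c : Fin (p + 2) → ℝ) : mk x c 0 = x 0 := rfl
theorem mk1 (x : Fin 3 → ℝ) (c : Fin (p + 2) → ℝ) : mk x c 1 = x 1 := rfl
theorem mk2 (x : Fin 3 → ℝ) (c : Fin (p + 2) → ℝ) : mk x c 2 = x 2 := rfl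
theorem mky (x : Fin 3 → ℝ) (c : Fin (p + 2) → ℝ) (l : Fin (p + 2)) : yy (mk x c) l = c l := rfl

theorem yy_sub (v w : Fin (p + 5) → ℝ) (l : Fin (p + 2)) : yy (v - w) l = yy v l - yy w l := rfl

theorem nq_lt {v : Fin (p + 5) → ℝ} {r : ℝ} (hr : 0 < r) : nq v < r ↔ ∀ l, |yy v l| < r := by
  unfold nq
  rw [pi_norm_lt_iff hr]
  rfl

theorem nq_le {v : Fin (p + 5) → ℝ} {r : ℝ} (hr : 0 ≤ r) : nq v ≤ r ↔ ∀ l, |yy v l| ≤ r := by
  unfold nq
  rw [pi_norm_le_iff_of_nonneg hr]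
  rfl

/-- a vector of the lattice all of whose coordinates are less than `1` vanishes -/
theorem eq_zero_of_small {L : AddSubgroup (Fin (p + 5) → ℝ)} (hL : IsT L)
    {v : Fin (p + 5) → ℝ} (hv : v ∈ L) (h : ∀ i, |v i| < 1) : v = 0 := by
  by_contra h0
  have h1 := h 0
  have h2 := h 1
  have h3 := h 2
  rcases hL.1 v hv h0 with h6 | h6 | h6
  · unfold n1 at h6
    linarith
  · unfold ni at h6
    have : max |v 0| (max |v 1| |v 2|) < 2 :=
      max_lt (by linarith) (max_lt (by linarith) (by linarith))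
    linarith
  · have : nq v < 1 := (nq_lt one_pos).2 fun l => h _
    linarith

/-- the vectors of the lattice in a box are finitely many -/
theorem finite_box {L : AddSubgroup (Fin (p + 5) → ℝ)} (hL : IsT L) (R : ℝ) :
    {v : Fin (p + 5) → ℝ | v ∈ L ∧ ∀ i, |v i| ≤ R}.Finite := by
  have hfin : (Set.Icc (fun _ : Fin (p + 5) => ⌊-R⌋) (fun _ : Fin (p + 5) => ⌊R⌋) :
    Set (Fin (p + 5) → ℤ)).Finite := Set.finite_Icc _ _
  refine Set.Finite.of_finite_image (f := fun v : Fin (p + 5) → ℝ => fun i => ⌊v i⌋)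
    (hfin.subset ?_) ?_
  · rintro _ ⟨v, ⟨-, hv⟩, rfl⟩
    refine ⟨fun i => ?_, fun i => ?_⟩
    · exact Int.floor_le_floor (abs_le.1 (hv i)).1
    · exact Int.floor_le_floor (abs_le.1 (hv i)).2
  · rintro v ⟨hv, -⟩ v' ⟨hv', -⟩ h
    have h1 : v - v' = 0 := by
      refine eq_zero_of_small hL (L.sub_mem hv hv') fun i => ?_
      have h2 : ⌊v i⌋ = ⌊v' i⌋ := congrFun h i
      exact Int.abs_sub_lt_one_of_floor_eq_floor h2
    exact sub_eq_zero.1 h1

/-- the layer over `a` -/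
def UU (L : AddSubgroup (Fin (p + 5) → ℝ)) (a : Fin (p + 2) → ℝ) : Set (Fin 3 → ℝ) :=
  {u | ∃ w ∈ L, w 0 = u 0 ∧ w 1 = u 1 ∧ w 2 = u 2 ∧
    ∀ l, -(1 / 2) ≤ a l - yy w l ∧ a l - yy w l < 1 / 2}

theorem layer (hTO : Pool.Agent.K3h26.R5.S_TO) {L : AddSubgroup (Fin (p + 5) → ℝ)}
    (hL : IsT L) {a : Fin (p + 2) → ℝ} (ha : ∀ l, -(1 / 2) ≤ a l ∧ a l < 1 / 2)
    (u : Fin 3 → ℝ) :
    u ∈ UU L a ↔ ∃ i j k : ℤ, u 0 = 2 * i + k ∧ u 1 = 2 * j + k ∧ u 2 = k := by
  refine hTO (UU L a) ?_ ?_ ?_ u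
  · refine ⟨0, L.zero_mem, rfl, rfl, rfl, fun l => ?_⟩
    have h0 : yy (0 : Fin (p + 5) → ℝ) l = 0 := rfl
    rw [h0, sub_zero]
    exact ha l
  · rintro u ⟨w, hw, hw0, hw1, hw2, hw3⟩ u' ⟨w', hw', hw0', hw1', hw2', hz3⟩ hne
    have hd : w - w' ≠ 0 := by
      intro h
      apply hne
      have h0 : w = w' := sub_eq_zero.1 h
      subst h0
      funext i
      fin_cases i
      · exact hw0.symm.trans hw0'
      · exact hw1.symm.trans hw1'
      · exact hw2.symm.trans hw2'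
    have h3 : nq (w - w') < 1 := by
      rw [nq_lt one_pos]
      intro l
      rw [yy_sub, abs_lt]
      have q1 := hw3 l
      have q2 := hz3 l
      constructor <;> linarith [q1.1, q1.2, q2.1, q2.2]
    rcases hL.1 _ (L.sub_mem hw hw') hd with h | h | h
    · left
      unfold n1 at h
      simp only [Pi.sub_apply, hw0, hw1, hw2, hw0', hw1', hw2'] at h
      exact h
    · right
      unfold ni at h
      simp only [Pi.sub_apply, hw0, hw1, hw2, hw0', hw1', hw2', le_max_iff] at h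
      exact h
    · linarith
  · intro x
    -- the points above `x`
    let d : ℕ → ℝ := fun n => 1 / ((n : ℝ) + 1)
    have hd0 : ∀ n, 0 < d n := fun n => by positivity
    have hd1 : ∀ n, d n ≤ 1 := fun n => by
      have : (0 : ℝ) ≤ n := Nat.cast_nonneg n
      rw [div_le_one (by positivity)]
      linarith
    have hdt : Tendsto d atTop (𝓝 0) := tendsto_one_div_add_atTop_nhds_zero_nat
    let y : ℕ → Fin (p + 5) → ℝ := fun n => mk x fun l => a l + d n
    have hy : ∀ n, ∃ v ∈ L, n1 (y n - v) ≤ 3 / 2 ∧ ni (y n - v) ≤ 1 ∧ nq (y n - v) ≤ 1 / 2 :=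
      fun n => hL.2 (y n)
    choose f hfL hf1 hf2 hf3 using hy
    have e0 : ∀ n, (y n - f n) 0 = x 0 - f n 0 := fun n => rfl
    have e1 : ∀ n, (y n - f n) 1 = x 1 - f n 1 := fun n => rfl
    have e2 : ∀ n, (y n - f n) 2 = x 2 - f n 2 := fun n => rfl
    have e3 : ∀ n l, yy (y n - f n) l = a l + d n - yy (f n) l := fun n l => rfl
    have g1 : ∀ n, |x 0 - f n 0| + |x 1 - f n 1| + |x 2 - f n 2| ≤ 3 / 2 := fun n => by
      have := hf1 n
      unfold n1 at this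
      rwa [e0, e1, e2] at this
    have g2 : ∀ n, |x 0 - f n 0| ≤ 1 ∧ |x 1 - f n 1| ≤ 1 ∧ |x 2 - f n 2| ≤ 1 := fun n => by
      have := hf2 n
      unfold ni at this
      rwa [e0, e1, e2, max_le_iff, max_le_iff] at this
    have g3 : ∀ n l, |a l + d n - yy (f n) l| ≤ 1 / 2 := fun n l => by
      have := (nq_le (by norm_num)).1 (hf3 n) l
      rwa [e3] at this
    let R : ℝ := |x 0| + |x 1| + |x 2| + 4
    have hR : ∀ n i, |f n i| ≤ R := by
      intro n i
      have q0 := abs_nonneg (x 0)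
      have q1 := abs_nonneg (x 1)
      have q2 := abs_nonneg (x 2)
      obtain ⟨r0, r1, r2⟩ := g2 n
      have s0 := abs_sub_abs_le_abs_sub (f n 0) (x 0)
      have s1 := abs_sub_abs_le_abs_sub (f n 1) (x 1)
      have s2 := abs_sub_abs_le_abs_sub (f n 2) (x 2)
      rw [abs_sub_comm] at s0 s1 s2
      have t0 := hd0 n
      have t1 := hd1 n
      refine cases5 (P := fun i => |f n i| ≤ R) ?_ ?_ ?_ (fun l => ?_) i
      · show |f n 0| ≤ |x 0| + |x 1| + |x 2| + 4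
        linarith
      · show |f n 1| ≤ |x 0| + |x 1| + |x 2| + 4
        linarith
      · show |f n 2| ≤ |x 0| + |x 1| + |x 2| + 4
        linarith
      · show |yy (f n) l| ≤ |x 0| + |x 1| + |x 2| + 4
        have r3' := abs_le.1 (g3 n l)
        have r4' := ha l
        rw [abs_le]
        constructor <;> linarith [r3'.1, r3'.2, r4'.1, r4'.2]
    have hfin := finite_box hL R
    have : Finite {v : Fin (p + 5) → ℝ | v ∈ L ∧ ∀ i, |v i| ≤ R} := hfin.to_subtype
    obtain ⟨w, hw⟩ := Finite.exists_infinite_fiber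
      (fun n : ℕ => (⟨f n, hfL n, hR n⟩ : {v : Fin (p + 5) → ℝ | v ∈ L ∧ ∀ i, |v i| ≤ R}))
    have hinf : {n : ℕ | f n = w.1}.Infinite := by
      refine (Set.infinite_coe_iff.1 hw).mono ?_
      intro n hn
      exact congrArg Subtype.val hn
    have hfreq : ∃ᶠ n in atTop, f n = w.1 := Nat.frequently_atTop_iff_infinite.2 hinf
    obtain ⟨n0, hn0⟩ := hinf.nonempty
    have hn0 : f n0 = w.1 := hn0
    have hwL : w.1 ∈ L := w.2.1
    have k1 := g1 n0
    have k2 := g2 n0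
    have k3 := g3 n0
    rw [hn0] at k1 k2 k3
    have l3 : ∀ l, -(1 / 2) ≤ a l + 0 - yy w.1 l := by
      intro l
      have t3 : Tendsto (fun n => a l + d n - yy w.1 l) atTop (𝓝 (a l + 0 - yy w.1 l)) :=
        (tendsto_const_nhds.add hdt).sub tendsto_const_nhds
      refine ge_of_tendsto_of_frequently t3 (hfreq.mono fun n hn => ?_)
      have := (abs_le.1 (g3 n l)).1
      rwa [hn] at this
    have z0 := hd0 n0
    refine ⟨![w.1 0, w.1 1, w.1 2], ⟨w.1, hwL, rfl, rfl, rfl, fun l => ?_⟩,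
      k1, k2.1, k2.2.1, k2.2.2⟩
    have z3 := (abs_le.1 (k3 l)).2
    have z4 := l3 l
    constructor <;> linarith

/-- brick SL -/
theorem t_SL (hTO : Pool.Agent.K3h26.R5.S_TO) : Pool.Agent.K3h26.R6.S_SL := by
  intro p L hL
  refine ⟨?_, ?_⟩
  · intro v hv hmy
    rw [nq_lt one_pos] at hmy
    have key : ∀ t : ℝ, |t| < 1 → ∃ a : ℝ, (-(1 / 2) ≤ a ∧ a < 1 / 2) ∧
        -(1 / 2) ≤ a - t ∧ a - t < 1 / 2 := by
      intro t ht
      obtain ⟨ht, ht'⟩ := abs_lt.1 ht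
      rcases le_or_gt 0 t with h | h
      · exact ⟨t - 1 / 2, ⟨by linarith, by linarith⟩, by linarith, by linarith⟩
      · exact ⟨-(1 / 2), ⟨by linarith, by linarith⟩, by linarith, by linarith⟩
    choose a ha1 ha2 using fun l => key (yy v l) (hmy l)
    exact (layer hTO hL ha1 ![v 0, v 1, v 2]).1 ⟨v, hv, rfl, rfl, rfl, ha2⟩
  · intro i j k a ha
    obtain ⟨w, hw, w0, w1, w2, h⟩ := (layer hTO hL ha ![2 * i + k, 2 * j + k, k]).2
      ⟨i, j, k, rfl, rfl, rfl⟩
    exact ⟨w, hw, w0, w1, w2, h⟩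

end Pool.Agent.K3h24.R6
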